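import Pool.Agent.H62.BM.Ball

/-!
A compact space `L` such that the supremum norm of `C(L)` is measurable for the weak Baire
sigma-algebra while the closed unit ball of the dual space is not weak-star separable.

`L` is the closure of a family of points `pt T`, one for each finite subset `T` of the Cantor set,
in a product of copies of the two-point space. The coordinates of `pt T` record which points lie
in `T` and, for every sequence `J` of finite sets with `n + 2` elements, whether `T` contains at
most three quarters of each `J n`.

* Every countable set of functionals in the dual ball is at most `3/4` on some norm one function:
  the pigeonhole principle applied to the uncountably many coordinates.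
* For every subset `P` of the Cantor set the averages of `g` over sparse random subsets of `P` give
  a functional. The clopen sets `P` give countably many functionals, and values of `g` are
  recovered from them by extrapolation with an error that vanishes as the clopen partition is
  refined, uniformly for partition pieces in bounded number. Hence the norm is a countable
  combination of limits of these functionals.
-/

namespace Pool.Agent.H62.Variants.MeasurableNorm

open Pool.Agent.H62.BM

/-- There is a compact Hausdorff space `L` such that the supremum norm on `C(L)` is measurable
for the weak Baire sigma-algebra but the closed unit ball of the dual of `C(L)` is not weak-star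
separable. -/
theorem result :
    ∃ (L : Type) (_ : TopologicalSpace L) (_ : CompactSpace L) (_ : T2Space L),
      @Measurable C(L, ℝ) ℝ (weakBaire C(L, ℝ)) (borel ℝ) (fun g => ‖g‖) ∧
        ¬ WeakStarSeparable (dualBall C(L, ℝ)) := by
  classical
  have hI : Uncountable I := by
    rw [← Cardinal.aleph0_lt_mk_iff]
    have : Cardinal.mk (ℕ → Bool) = 2 ^ Cardinal.aleph0 := by simp
    rw [this]
    exact Cardinal.cantor _
  exact ⟨Pool.Agent.H62.BM.L I, inferInstance, inferInstance, inferInstance,
    norm_measurable, not_separable⟩

end Pool.Agent.H62.Variants.MeasurableNorm
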